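import Pool.Agent.H2.KM.Targets

/-!
# Iterated contractions (row VCB of `kim_modules`)
-/

set_option autoImplicit false

open Matrix Pool.Agent.H2.NL Pool.Agent.H2.KM Pool.Agent.H64.CC

namespace Pool.Agent.H68.KM

private theorem it_inv {α : Type} (P : α → Prop) (f : α → α) (hf : ∀ x, P x → P (f x)) :
    ∀ (n : ℕ) (x : α), P x → P (f^[n] x) := by
  intro n
  induction n with
  | zero => intro x hx; exact hx
  | succ n ih =>
    intro x hx
    rw [Function.iterate_succ_apply]
    exact ih _ (hf x hx)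

private theorem it_comm1 {α : Type} (P : α → Prop) (f g : α → α) (hf : ∀ x, P x → P (f x))
    (hc : ∀ x, P x → f (g x) = g (f x)) :
    ∀ (n : ℕ) (x : α), P x → f^[n] (g x) = g (f^[n] x) := by
  intro n
  induction n with
  | zero => intro x _; rfl
  | succ n ih =>
    intro x hx
    rw [Function.iterate_succ_apply, Function.iterate_succ_apply, hc x hx, ih _ (hf x hx)]

private theorem it_comm {α : Type} (P : α → Prop) (f g : α → α) (hf : ∀ x, P x → P (f x))
    (hg : ∀ x, P x → P (g x)) (hc : ∀ x, P x → f (g x) = g (f x)) (n : ℕ) :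
    ∀ (m : ℕ) (x : α), P x → f^[n] (g^[m] x) = g^[m] (f^[n] x) := by
  intro m
  induction m with
  | zero => intro x _; rfl
  | succ m ih =>
    intro x hx
    rw [Function.iterate_succ_apply, Function.iterate_succ_apply, ih _ (hg x hx),
      it_comm1 P f g hf hc n x hx]

theorem pf_VCB (h2 : T_BSP) (h3 : T_CMM) : T_VCB := by
  intro K _ I _ _ F y hy j i k c b
  have hA : ∀ x, GS F.o x → GS F.o (opA F x) := fun x hx => (h2 K I F x hx).1
  have hB : ∀ x, GS F.o x → GS F.o (opB F x) := fun x hx => (h2 K I F x hx).2.1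
  have hC : ∀ x, GS F.o x → GS F.o (opC F x) := fun x hx => (h2 K I F x hx).2.2
  have hBy : GS F.o ((opB F)^[b] y) := it_inv (GS F.o) (opB F) hB b y hy
  have hAy : GS F.o ((opA F)^[j] y) := it_inv (GS F.o) (opA F) hA j y hy
  refine ⟨it_inv (GS F.o) (opC F) hC c _ hBy, ?_⟩
  unfold val
  rw [it_comm (GS F.o) (opA F) (opC F) hA hC (fun x hx => (h3 K I F x hx).2.1) j c _ hBy,
    it_comm (GS F.o) (opA F) (opB F) hA hB (fun x hx => (h3 K I F x hx).1) j b y hy,
    it_comm (GS F.o) (opB F) (opC F) hB hC (fun x hx => (h3 K I F x hx).2.2) i c _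
      (it_inv (GS F.o) (opB F) hB b _ hAy),
    ← Function.iterate_add_apply, ← Function.iterate_add_apply]

end Pool.Agent.H68.KM
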